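import Mathlib.GroupTheory.Congruence.Basic
import Mathlib.Algebra.Group.WithOne.Defs
import Mathlib.Tactic

set_option autoImplicit false

/-!
# Finite semigroups on which o-conjugacy is a congruence

If every element of a semigroup has an idempotent power (for instance if the semigroup is finite),
and o-conjugacy is a congruence, then the quotient by o-conjugacy is a group; in particular it is
cancellative.
-/

namespace Pool.Agent.Results.MP_393150_al.QuotientIsGroup

universe u

/-- o-conjugacy: `a g = g b` and `b h = h a` for some `g, h` in the semigroup itself -/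
def OConj {S : Type u} [Semigroup S] (a b : S) : Prop :=
  ∃ g h : S, a * g = g * b ∧ b * h = h * a

/-- `pw a n` is the power of `a` with exponent `n + 1` -/
def pw {S : Type u} [Semigroup S] (a : S) : ℕ → S
  | 0 => a
  | n + 1 => pw a n * a

theorem pw_coe {S : Type u} [Semigroup S] (a : S) (n : ℕ) :
    ((pw a n : S) : WithOne S) = (a : WithOne S) ^ (n + 1) := by
  induction n with
  | zero => simp [pw]
  | succ n ih => rw [pw, WithOne.coe_mul, ih, pow_succ _ (n + 1)]

theorem pw_mul {S : Type u} [Semigroup S] (a : S) (m n : ℕ) :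
    pw a m * pw a n = pw a (m + n + 1) := by
  apply WithOne.coe_injective
  rw [WithOne.coe_mul, pw_coe, pw_coe, pw_coe, ← pow_add]
  congr 1
  omega

/-- every element of a finite semigroup has an idempotent power -/
theorem exists_idem {S : Type u} [Semigroup S] [Finite S] (a : S) :
    ∃ n, pw a n * pw a n = pw a n := by
  obtain ⟨i, j, hne, hij⟩ := Finite.exists_ne_map_eq_of_infinite (pw a)
  wlog hlt : i < j generalizing i j
  · exact this j i hne.symm hij.symm (by omega)
  obtain ⟨k, rfl⟩ : ∃ k, j = i + k := ⟨j - i, by omega⟩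
  have hk : 1 ≤ k := by omega
  have h1 : ∀ m, i ≤ m → ∀ l, pw a m = pw a (m + l * k) := by
    intro m hm l
    induction l with
    | zero => simp
    | succ l ih =>
      rw [ih]
      obtain ⟨r, hr⟩ : ∃ r, m + l * k = i + r := ⟨m + l * k - i, by omega⟩
      have e : m + (l + 1) * k = i + k + r := by
        rw [add_mul, one_mul, ← add_assoc, hr]; omega
      rw [hr, e]
      rcases r with _ | r
      · simpa using hij
      · rw [show i + (r + 1) = i + r + 1 by omega, show i + k + (r + 1) = i + k + r + 1 by omega,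
          ← pw_mul, ← pw_mul, hij]
  refine ⟨(i + 1) * k - 1, ?_⟩
  have h2 : i + 1 ≤ (i + 1) * k := Nat.le_mul_of_pos_right _ hk
  rw [pw_mul, h1 ((i + 1) * k - 1) (by omega) (i + 1)]
  congr 1
  omega

section

variable {S : Type u} [Semigroup S]

theorem oconj_idem {e f : S} (he : e * e = e) (hf : f * f = f) : OConj e f :=
  ⟨e * f, f * e, by rw [← mul_assoc, he, mul_assoc, hf], by rw [← mul_assoc, hf, mul_assoc, he]⟩

theorem pw_comm (a : S) (n : ℕ) : pw a n * a = a * pw a n := by
  apply WithOne.coe_injective
  rw [WithOne.coe_mul, WithOne.coe_mul, pw_coe, ← pow_succ, ← pow_succ']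

theorem oconj_mul_idem (a : S) (n : ℕ) (hn : pw a n * pw a n = pw a n) :
    OConj a (a * pw a n) := by
  refine ⟨pw a n, pw a n, ?_, ?_⟩
  · rw [← mul_assoc, pw_comm, mul_assoc, hn]
  · rw [mul_assoc, hn, pw_comm]

variable (c : Con S) (hc : ∀ a b, c a b ↔ OConj a b) (hS : ∀ a : S, ∃ n, pw a n * pw a n = pw a n)

include hc hS

theorem mul_idem_eq (a e : S) (he : e * e = e) : (a * e : c.Quotient) = a := by
  obtain ⟨n, hn⟩ := hS a
  have h1 : ((a * pw a n : S) : c.Quotient) = a :=
    ((c.eq).mpr ((hc _ _).mpr (oconj_mul_idem a n hn))).symm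
  have h2 : ((e : S) : c.Quotient) = (pw a n : S) := (c.eq).mpr ((hc _ _).mpr (oconj_idem he hn))
  rw [h2, ← Con.coe_mul, h1]

theorem idem_mul_eq (a e : S) (he : e * e = e) : (e * a : c.Quotient) = a := by
  obtain ⟨n, hn⟩ := hS a
  have h1 : ((a * pw a n : S) : c.Quotient) = a :=
    ((c.eq).mpr ((hc _ _).mpr (oconj_mul_idem a n hn))).symm
  have h2 : ((e : S) : c.Quotient) = (pw a n : S) := (c.eq).mpr ((hc _ _).mpr (oconj_idem he hn))
  rw [h2, ← Con.coe_mul, pw_comm, h1]

theorem exists_inv (a e : S) (he : e * e = e) : ∃ b : S,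
    (a * b : c.Quotient) = e ∧ (b * a : c.Quotient) = e := by
  obtain ⟨n, hn⟩ := hS a
  have h2 : ((e : S) : c.Quotient) = (pw a n : S) := (c.eq).mpr ((hc _ _).mpr (oconj_idem he hn))
  have h3 : pw a (n + n) * a = pw a n := by
    show pw a (n + n + 1) = pw a n
    rw [← pw_mul, hn]
  refine ⟨pw a (n + n), ?_, ?_⟩
  · rw [← Con.coe_mul, ← pw_comm, h3, h2]
  · rw [← Con.coe_mul, h3, h2]

theorem cancel (x y z : c.Quotient) : (x * y = x * z → y = z) ∧ (y * x = z * x → y = z) := by
  induction x using Con.induction_on with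
  | H x =>
  obtain ⟨n, hn⟩ := hS x
  obtain ⟨b, hb1, hb2⟩ := exists_inv c hc hS x (pw x n) hn
  have hl : ∀ w : c.Quotient, ((pw x n : S) : c.Quotient) * w = w := by
    intro w
    induction w using Con.induction_on with
    | H w => exact idem_mul_eq c hc hS w _ hn
  have hr : ∀ w : c.Quotient, w * ((pw x n : S) : c.Quotient) = w := by
    intro w
    induction w using Con.induction_on with
    | H w => exact mul_idem_eq c hc hS w _ hn
  constructor
  · intro h
    have := congrArg (fun w => (b : c.Quotient) * w) h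
    simp only [← mul_assoc, hb2, hl] at this
    exact this
  · intro h
    have := congrArg (fun w => w * (b : c.Quotient)) h
    simp only [mul_assoc, hb1, hr] at this
    exact this

end

/-- **Let `S` be a finite semigroup or, more generally, a semigroup in which every element has an
idempotent power. If o-conjugacy is a congruence on `S`, then the quotient by o-conjugacy is
cancellative; if `S` is nonempty, the quotient is a group.** -/
theorem result (S : Type u) [Semigroup S]
    (hS : Finite S ∨ ∀ a : S, ∃ n, pw a n * pw a n = pw a n)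
    (c : Con S) (hc : ∀ a b, c a b ↔ OConj a b) :
    (∀ x y z : c.Quotient, (x * y = x * z → y = z) ∧ (y * x = z * x → y = z)) ∧
    (Nonempty S → ∃ i : c.Quotient, ∀ x : c.Quotient,
      i * x = x ∧ x * i = x ∧ ∃ y, x * y = i ∧ y * x = i) := by
  have hS' : ∀ a : S, ∃ n, pw a n * pw a n = pw a n := by
    rcases hS with h | h
    · exact exists_idem
    · exact h
  refine ⟨cancel c hc hS', ?_⟩
  rintro ⟨a⟩
  obtain ⟨n, hn⟩ := hS' a
  refine ⟨((pw a n : S) : c.Quotient), fun x => ?_⟩
  induction x using Con.induction_on with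
  | H x =>
  obtain ⟨b, hb1, hb2⟩ := exists_inv c hc hS' x (pw a n) hn
  exact ⟨idem_mul_eq c hc hS' x _ hn, mul_idem_eq c hc hS' x _ hn, b, hb1, hb2⟩

end Pool.Agent.Results.MP_393150_al.QuotientIsGroup
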